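import Pool.Agent.Helper84.SV.Defs

open Set

namespace Pool.SV

/-- The group of affine automorphisms of `ℝ^m`. -/
abbrev Aff (m : ℕ) := EuclideanSpace ℝ (Fin m) ≃ᵃ[ℝ] EuclideanSpace ℝ (Fin m)

/-- `X` is a nonempty open convex set, and `Γ` preserves `X` and acts on it freely, properly
discontinuously and cocompactly. -/
structure Divides {m : ℕ} (Γ : Subgroup (Aff m)) (X : Set (EuclideanSpace ℝ (Fin m))) : Prop where
  isOpen : IsOpen X
  convex : Convex ℝ X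
  nonempty : X.Nonempty
  inv : ∀ g ∈ Γ, ∀ x ∈ X, g x ∈ X
  free : ∀ g ∈ Γ, ∀ x ∈ X, g x = x → g = 1
  pd : ∀ K ⊆ X, IsCompact K → {g | g ∈ Γ ∧ ∃ x ∈ K, g x ∈ K}.Finite
  cocompact : ∃ K ⊆ X, IsCompact K ∧ ∀ x ∈ X, ∃ g ∈ Γ, g x ∈ K

/-- `M` is the quotient space `X / Γ`, with projection `π`. -/
structure IsOrbitSpace {m : ℕ} (Γ : Subgroup (Aff m)) (X : Set (EuclideanSpace ℝ (Fin m)))
    (M : Type*) [TopologicalSpace M] (π : X → M) : Prop where
  quot : Topology.IsQuotientMap π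
  fib : ∀ x y : X, π x = π y ↔ ∃ g ∈ Γ, g x.1 = y.1

/-- Every real singular cycle of `M` of degree `q + 1` is homologous to cycles of arbitrarily
small `ℓ¹`-norm. -/
def ZeroSeminorm (M : Type*) [TopologicalSpace M] (q : ℕ) : Prop :=
  ∀ z : Chain M (q + 1), bd M q z = 0 → ∀ ε : ℝ, 0 < ε →
    ∃ b : Chain M (q + 2), nrm (z + bd M (q + 1) b) < ε

/-- `Γ` has a nontrivial normal subgroup `N` with a solvable subgroup `S` of finite index. -/
def HasVirtuallySolvableNormal {G : Type*} [Group G] (Γ : Subgroup G) : Prop :=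
  ∃ N S : Subgroup G, N ≤ Γ ∧ (∀ g ∈ Γ, ∀ a ∈ N, g * a * g⁻¹ ∈ N) ∧ N ≠ ⊥ ∧
    S ≤ N ∧ S.relIndex N ≠ 0 ∧ Group.IsSolvable S

end Pool.SV
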